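import Pool.Agent.Helper14_MV.B2
import Pool.Agent.Helper2_MV.Keep

/-!
# MWK: the variety K = {xyx = xyx^2, x^2y = x^2yx, x^2y^2 = y^2x^2} (definitions)

MP_23468a_al.  Words are lists of natural numbers, `RR θ l l'` : the identity `l ≈ l'` belongs to
the fully invariant congruence `θ`.  `pre w y` is the part of `w` before the first occurrence of
`y`.  `Dp k w x` : the letter `x` has depth at most `k` in `w`: it is simple, or the first
occurrence of a letter of depth at most `k-1` is between its first and its second occurrence.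
-/

namespace Pool.Agent.MWK

open Pool.Agent.Helper14_MV Pool.Agent.Helper2_MV

/-- the three identities of `K` -/
structure Kc (θ : FIC) : Prop where
  g : RR θ [0, 1, 0] [0, 1, 0, 0]
  e : RR θ [0, 0, 1] [0, 0, 1, 0]
  c : RR θ [0, 0, 1, 1] [1, 1, 0, 0]

/-- the part of `w` before the first occurrence of `y` (the word `w` if `y` does not occur) -/
def pre (w : List ℕ) (y : ℕ) : List ℕ := w.takeWhile (fun c => decide (c ≠ y))

/-- `x` has depth at most `k` in `w` -/
def Dp : ℕ → List ℕ → ℕ → Prop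
  | 0, _, _ => False
  | k + 1, w, x => w.count x = 1 ∨ ∃ y, Dp k w y ∧ (pre w y).count x = 1

/-- Agreement of `u` and `v`.  `F y x i` says that the relative position of the first occurrence
of `y` and of the `(i+1)`-th occurrence of `x` is visible. -/
def Ag (F : ℕ → ℕ → ℕ → Prop) (u v : List ℕ) : Prop :=
  (∀ x i, i ≤ 1 → (i + 1 ≤ u.count x ↔ i + 1 ≤ v.count x)) ∧
  ∀ y x i, i ≤ 1 → F y x i → (i + 1 ≤ (pre u y).count x ↔ i + 1 ≤ (pre v y).count x)

/-- type F, level m -/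
def FF (m : ℕ) (w : List ℕ) : ℕ → ℕ → ℕ → Prop := fun y _ _ => Dp m w y

/-- type B, level m+1 -/
def FB (m : ℕ) (w : List ℕ) : ℕ → ℕ → ℕ → Prop :=
  fun y x i => Dp m w y ∨ (Dp (m + 1) w y ∧ Dp (m + 1) w x ∧ i = 0)

/-- type D, level (m+1, e) -/
def FD (m e : ℕ) (w : List ℕ) : ℕ → ℕ → ℕ → Prop :=
  fun y x i => Dp m w y ∨ (Dp (m + 1) w y ∧ (i = 0 ∨ Dp e w x))

/-- `θ` contains all exchanges of adjacent letters which are invisible for the type `F` -/
def Bt (F : List ℕ → ℕ → ℕ → ℕ → Prop) (θ : FIC) : Prop :=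
  ∀ (P : List ℕ) (a b : ℕ) (Q : List ℕ), a ≠ b → P.count a ≤ 1 → P.count b ≤ 1 →
    ¬ (a ∉ P ∧ F (P ++ a :: b :: Q) a b (P.count b)) →
    ¬ (b ∉ P ∧ F (P ++ a :: b :: Q) b a (P.count a)) →
      RR θ (P ++ a :: b :: Q) (P ++ b :: a :: Q)

/-- after `A` the segments `qs` are read; every letter of a segment (and of `p`) occurs twice at
the end of the next segment -/
def Ok : List ℕ → List ℕ → List (List ℕ) → Prop
  | _, _, [] => True
  | A, p, q :: qs => (∀ z ∈ p, 2 ≤ (A ++ q).count z) ∧ Ok (A ++ q) q qs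

/-- word bit of type F -/
def WF (m : ℕ) (θ : FIC) : Prop :=
  ∀ (P X Y : List ℕ) (qs : List (List ℕ)) (R : List ℕ), qs.length = m →
    Ok (P ++ X ++ Y) (X ++ Y) qs →
      RR θ (P ++ X ++ Y ++ qs.flatten ++ R) (P ++ Y ++ X ++ qs.flatten ++ R)

/-- word bit of type B -/
def WB (m : ℕ) (θ : FIC) : Prop :=
  ∀ (P X C : List ℕ) (qs : List (List ℕ)) (R : List ℕ), qs.length = m →
    (∀ l ∈ X, 2 ≤ (P ++ X).count l) → Ok (P ++ X ++ C) C qs →
      RR θ (P ++ X ++ C ++ qs.flatten ++ R) (P ++ C ++ X ++ qs.flatten ++ R)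

/-- word bit of type A -/
def WA (m : ℕ) (θ : FIC) : Prop :=
  ∀ (P X C : List ℕ) (qs : List (List ℕ)) (R : List ℕ), qs.length = m →
    Ok (P ++ X ++ X ++ C) C qs →
      RR θ (P ++ X ++ X ++ C ++ qs.flatten ++ R) (P ++ X ++ C ++ X ++ qs.flatten ++ R)

/-- word bit of type D -/
def WD (m e : ℕ) (θ : FIC) : Prop :=
  ∀ (P X D C : List ℕ) (qs : List (List ℕ)) (R : List ℕ), qs.length = m →
    Ok (P ++ X ++ D ++ X ++ C) C qs →
    (m + 1 - e < m → ∀ l ∈ D,
      2 ≤ (P ++ X ++ D ++ X ++ C ++ (qs.take (m + 2 - e)).flatten).count l) →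
      RR θ (P ++ X ++ D ++ X ++ C ++ qs.flatten ++ R) (P ++ X ++ D ++ C ++ X ++ qs.flatten ++ R)

/-- chain in a word: `p` are letters whose second occurrence is after the first letter of `cs`,
every letter of `cs` has its second occurrence after the next letter, the last one is simple -/
def Chc (w : List ℕ) : List ℕ → List ℕ → Prop
  | p, [] => ∀ z ∈ p, w.count z = 1
  | p, c :: cs => (∀ z ∈ p, (pre w c).count z = 1) ∧ c ∈ w ∧ Chc w [c] cs

/-- the same for the rest `B` of a word after the first occurrences of the letters `p` -/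
def Chb : List ℕ → List ℕ → List ℕ → Prop
  | p, [], B => ∀ z ∈ p, z ∉ B
  | p, c :: cs, B => ∃ B1 B2, B = B1 ++ c :: B2 ∧ (∀ z ∈ p, z ∉ B1) ∧ c ∉ B1 ∧
      (∀ z ∈ cs, z ∉ B1) ∧ Chb [c] cs B2

/-- the same with a delayed letter `d`, which does not occur before the letter number `k` of
`cs` -/
def Chd (d : ℕ) : ℕ → List ℕ → List ℕ → List ℕ → Prop
  | _, p, [], B => (∀ z ∈ p, z ∉ B) ∧ d ∉ B
  | 0, p, c :: cs, B => ∃ B1 B2, B = B1 ++ c :: B2 ∧ (∀ z ∈ p, z ∉ B1) ∧ c ∉ B1 ∧
      (∀ z ∈ cs, z ∉ B1) ∧ d ∉ B1 ∧ Chb [c] cs B2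
  | k + 1, p, c :: cs, B => ∃ B1 B2, B = B1 ++ c :: B2 ∧ (∀ z ∈ p, z ∉ B1) ∧ c ∉ B1 ∧
      (∀ z ∈ cs, z ∉ B1) ∧ d ∉ B1 ∧ Chd d k [c] cs B2

/-- every letter doubled -/
def dbl (l : List ℕ) : List ℕ := l.flatMap (fun c => [c, c])

/-! ### basic lemmas on `pre` -/

theorem not_mem_pre (w : List ℕ) (y : ℕ) : y ∉ pre w y := by
  intro h
  have := List.mem_takeWhile_imp h
  simp at this

theorem pre_prefix (w : List ℕ) (y : ℕ) : pre w y <+: w := List.takeWhile_prefix _

theorem pre_not_mem {w : List ℕ} {y : ℕ} (h : y ∉ w) : pre w y = w := by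
  unfold pre
  rw [List.takeWhile_eq_self_iff]
  intro c hc
  simp only [decide_eq_true_eq]
  rintro rfl
  exact h hc

theorem pre_append {A : List ℕ} {y : ℕ} (h : y ∉ A) (B : List ℕ) :
    pre (A ++ B) y = A ++ pre B y := by
  unfold pre
  rw [List.takeWhile_append_of_pos]
  intro c hc
  simp only [decide_eq_true_eq]
  rintro rfl
  exact h hc

theorem pre_cons_self (y : ℕ) (B : List ℕ) : pre (y :: B) y = [] := by
  unfold pre
  simp

theorem pre_split {A : List ℕ} {y : ℕ} (h : y ∉ A) (B : List ℕ) : pre (A ++ y :: B) y = A := by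
  rw [pre_append h, pre_cons_self, List.append_nil]

theorem mem_split {w : List ℕ} {y : ℕ} (h : y ∈ w) : ∃ B, w = pre w y ++ y :: B := by
  obtain ⟨A, B, h1, h2⟩ := List.eq_append_cons_of_mem h
  refine ⟨B, ?_⟩
  rw [h1, pre_split h2]

theorem pre_append_mem {A : List ℕ} {y : ℕ} (h : y ∈ A) (B : List ℕ) :
    pre (A ++ B) y = pre A y := by
  obtain ⟨C, hC⟩ := mem_split h
  have h1 : A ++ B = pre A y ++ y :: (C ++ B) := by
    conv_lhs => rw [hC]
    simp
  rw [h1, pre_split (not_mem_pre A y)]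

theorem count_pre_le (w : List ℕ) (x y : ℕ) : (pre w y).count x ≤ w.count x :=
  (pre_prefix w y).sublist.count_le x

theorem mem_of_mem_pre {w : List ℕ} {x y : ℕ} (h : x ∈ pre w y) : x ∈ w :=
  (pre_prefix w y).subset h

/-- the first occurrences are linearly ordered -/
theorem pre_total {w : List ℕ} {x y : ℕ} (hx : x ∈ w) (hxy : x ≠ y) :
    x ∈ pre w y ∨ y ∈ pre w x := by
  by_cases hy : y ∈ w
  · obtain ⟨B, hB⟩ := mem_split hy
    by_cases h : x ∈ pre w y
    · exact Or.inl h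
    · right
      have hx' : x ∉ pre w y := h
      have h2 : pre w x = pre w y ++ pre (y :: B) x := by
        conv_lhs => rw [hB]
        rw [pre_append hx']
      rw [h2]
      apply List.mem_append_right
      unfold pre
      simp [Ne.symm hxy]
  · left
    rw [pre_not_mem hy]
    exact hx

/-- `pre w y` is an initial part of `pre w z` if `y` comes before `z` -/
theorem pre_mono {w : List ℕ} {y z : ℕ} (h : y ∈ pre w z) : ∃ C, pre w z = pre w y ++ y :: C := by
  obtain ⟨B, hB⟩ := mem_split h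
  refine ⟨B, ?_⟩
  have h1 : pre w y = pre (pre w z) y := by
    obtain ⟨D, hD⟩ := pre_prefix w z
    conv_lhs => rw [← hD]
    rw [pre_append_mem h]
  rw [h1]
  exact hB

theorem count_pre_mono {w : List ℕ} {y z : ℕ} (h : y ∈ pre w z) (x : ℕ) :
    (pre w y).count x ≤ (pre w z).count x := by
  obtain ⟨C, hC⟩ := pre_mono h
  rw [hC, List.count_append]
  omega

theorem pre_trans {w : List ℕ} {x y z : ℕ} (h : x ∈ pre w y) (h' : y ∈ pre w z) :
    x ∈ pre w z := by
  obtain ⟨C, hC⟩ := pre_mono h'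
  rw [hC]
  exact List.mem_append_left _ h

theorem pre_asymm {w : List ℕ} {x y : ℕ} (h : x ∈ pre w y) : y ∉ pre w x := by
  intro h'
  exact not_mem_pre w x (pre_trans h h')

/-- if more `x` are in front of `z` than in front of `y`, then `y` comes before `z` -/
theorem pre_of_count {w : List ℕ} {x y z : ℕ} (hy : y ∈ w)
    (h : (pre w y).count x < (pre w z).count x) : y ∈ pre w z := by
  have hyz : y ≠ z := by
    rintro rfl
    omega
  rcases pre_total hy hyz with h1 | h1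
  · exact h1
  · have := count_pre_mono h1 x
    omega

/-- a prefix of `w` which contains `y` contains `pre w y` -/
theorem pre_of_prefix {w A B : List ℕ} {y : ℕ} (hw : w = A ++ B) (hy : y ∈ A) :
    pre w y = pre A y := by
  rw [hw, pre_append_mem hy]

/-! ### first lemmas on the depth -/

theorem Dp.mono {w : List ℕ} : ∀ {k : ℕ} {x : ℕ}, Dp k w x → Dp (k + 1) w x
  | 0, _, h => h.elim
  | k + 1, x, h => by
    rcases h with h | ⟨y, h1, h2⟩
    · exact Or.inl h
    · exact Or.inr ⟨y, Dp.mono h1, h2⟩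

theorem Dp.le {w : List ℕ} {k l x : ℕ} (hkl : k ≤ l) (h : Dp k w x) : Dp l w x := by
  induction l, hkl using Nat.le_induction with
  | base => exact h
  | succ n _ ih => exact ih.mono

theorem Dp.mem {w : List ℕ} {k x : ℕ} (h : Dp k w x) : x ∈ w := by
  cases k with
  | zero => exact h.elim
  | succ k =>
    rcases h with h | ⟨y, _, h2⟩
    · exact List.count_pos_iff.1 (by omega)
    · exact mem_of_mem_pre (List.count_pos_iff.1 (by omega : 0 < (pre w y).count x))

theorem Dp.step {w : List ℕ} {k x y : ℕ} (h : Dp k w y) (h2 : (pre w y).count x = 1) :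
    Dp (k + 1) w x := Or.inr ⟨y, h, h2⟩

theorem Dp.simple {w : List ℕ} {k x : ℕ} (h : w.count x = 1) : Dp (k + 1) w x := Or.inl h

/-! ### first lemmas on chains -/

theorem mem_pre_of_count {w : List ℕ} {x y : ℕ} (h : (pre w y).count x = 1) : x ∈ pre w y :=
  List.count_pos_iff.1 (by omega)

theorem Chc.mem_pre {w : List ℕ} : ∀ {cs p : List ℕ}, Chc w p cs → ∀ z ∈ p, ∀ c ∈ cs,
    z ∈ pre w c
  | [], _, _, _, _, c, hc => by simp at hc
  | a :: cs, p, h, z, hz, c, hc => by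
    obtain ⟨h1, _, h3⟩ := h
    have hza : z ∈ pre w a := mem_pre_of_count (h1 z hz)
    rcases List.mem_cons.1 hc with rfl | hc'
    · exact hza
    · exact pre_trans hza (Chc.mem_pre h3 a (by simp) c hc')

theorem Chc.mem {w : List ℕ} : ∀ {cs p : List ℕ}, Chc w p cs → ∀ c ∈ cs, c ∈ w
  | [], _, _, c, hc => by simp at hc
  | a :: cs, p, h, c, hc => by
    obtain ⟨_, h2, h3⟩ := h
    rcases List.mem_cons.1 hc with rfl | hc'
    · exact h2
    · exact Chc.mem h3 c hc'

theorem Chc.nodup {w : List ℕ} : ∀ {cs p : List ℕ}, Chc w p cs → cs.Nodup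
  | [], _, _ => List.nodup_nil
  | a :: cs, p, h => by
    obtain ⟨_, _, h3⟩ := h
    refine List.nodup_cons.2 ⟨fun hm => ?_, Chc.nodup h3⟩
    exact not_mem_pre w a (Chc.mem_pre h3 a (by simp) a hm)

theorem Chc.not_mem {w : List ℕ} {cs p : List ℕ} (h : Chc w p cs) {z : ℕ} (hz : z ∈ p) :
    z ∉ cs := fun hm => not_mem_pre w z (h.mem_pre z hz z hm)

/-- agreement is inherited by smaller families -/
theorem Ag.weaken {F G : ℕ → ℕ → ℕ → Prop} {u v : List ℕ} (h : Ag F u v)
    (hG : ∀ y x i, G y x i → F y x i) : Ag G u v :=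
  ⟨h.1, fun y x i hi hg => h.2 y x i hi (hG y x i hg)⟩

theorem Ag.symm {F : ℕ → ℕ → ℕ → Prop} {u v : List ℕ} (h : Ag F u v) : Ag F v u :=
  ⟨fun x i hi => (h.1 x i hi).symm, fun y x i hi hf => (h.2 y x i hi hf).symm⟩

theorem Ag.trans {F : ℕ → ℕ → ℕ → Prop} {u v w : List ℕ} (h : Ag F u v) (h' : Ag F v w) :
    Ag F u w :=
  ⟨fun x i hi => (h.1 x i hi).trans (h'.1 x i hi),
    fun y x i hi hf => (h.2 y x i hi hf).trans (h'.2 y x i hi hf)⟩

/-- agreement of the numbers of occurrences: `= 1` -/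
theorem Ag.count_one {F : ℕ → ℕ → ℕ → Prop} {u v : List ℕ} (h : Ag F u v) (x : ℕ) :
    u.count x = 1 ↔ v.count x = 1 := by
  have h0 := h.1 x 0 (by omega)
  have h1 := h.1 x 1 (by omega)
  omega

theorem Ag.pre_count_one {F : ℕ → ℕ → ℕ → Prop} {u v : List ℕ} (h : Ag F u v) {y x : ℕ}
    (hF0 : F y x 0) (hF1 : F y x 1) : (pre u y).count x = 1 ↔ (pre v y).count x = 1 := by
  have h0 := h.2 y x 0 (by omega) hF0
  have h1 := h.2 y x 1 (by omega) hF1
  omega

theorem Ag.mem {F : ℕ → ℕ → ℕ → Prop} {u v : List ℕ} (h : Ag F u v) (x : ℕ) :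
    x ∈ u ↔ x ∈ v := by
  have h0 := h.1 x 0 (by omega)
  rw [← List.count_pos_iff, ← List.count_pos_iff]
  omega

theorem Ag.mem_pre {F : ℕ → ℕ → ℕ → Prop} {u v : List ℕ} (h : Ag F u v) {y x : ℕ}
    (hF0 : F y x 0) : x ∈ pre u y ↔ x ∈ pre v y := by
  have h0 := h.2 y x 0 (by omega) hF0
  rw [← List.count_pos_iff, ← List.count_pos_iff]
  omega

/-- the levels: `j = 0` type F, `j = 1` type B, `j = e + 1` type D with parameter `e` -/
def AgL (m : ℕ) : ℕ → List ℕ → List ℕ → Prop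
  | 0, u, v => Ag (FF m v) u v
  | 1, u, v => Ag (FB m v) u v
  | e + 2, u, v => Ag (FD m (e + 1) v) u v

/-- the corresponding exchanges -/
def BtL (m : ℕ) : ℕ → FIC → Prop
  | 0, θ => Bt (FF m) θ
  | 1, θ => Bt (FB m) θ
  | e + 2, θ => Bt (FD m (e + 1)) θ

end Pool.Agent.MWK
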