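import Pool.Agent.MWF.Stmts
import Pool.Agent.MWK.Defs

/-!
# MWK, part N: necessity in the gamma world `xyx ≈ xyx^2`, not `xyx ≈ x^2yx^2`

MP_23468a_al, full answer.  Every row is self contained, its complete proof is in the docstring.
Theorem NEC: if the lattice is modular (not completely regular, `x^2 ≈ x^3`), `xyx ≈ xyx^2` holds
and `xyx ≈ x^2yx^2` does not hold, then `x^2y^2 ≈ y^2x^2`, and `x^2y ≈ x^2yx` or
`xytxy ≈ yxtxy`.  Tools: `RR.append`, `RR.sub`, `RR.filter`, `RR.symm`, `RR.refl`, `β.trans`;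
`gaml`, `RR_gaml`, `gaml_keep`, `le_gaml`, `pent`, `dbl`, `Ap` in MWF/Defs.lean; the statements
POW, CTT, SIM, ZER of MWF/Stmts.lean.
-/

namespace Pool.Agent.MWK

open Pool.Agent.Helper14_MV Pool.Agent.Helper2_MV
open Pool.Agent.MWF (Ap gaml)

/-- the gamma world outside beta -/
structure Gw (β : FIC) : Prop where
  ap : Ap β
  gm : RR β [0, 1, 0] [0, 1, 0, 0]
  nb : ¬ RR β [0, 1, 0] [0, 0, 1, 0, 0]

/-- the words `x^i y^j`, `i, j ≥ 2` (`x = 0`, `y = 1`) -/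
def PA (w : List ℕ) : Prop :=
  ∃ i j, 2 ≤ i ∧ 2 ≤ j ∧ w = List.replicate i 0 ++ List.replicate j 1

/-- letters `x = 0`, `t = 1`, `y = 2`: types `x t x^k` and `y^j t` -/
def PB (w : List ℕ) : Prop :=
  (∀ c ∈ w, c = 0 ∨ c = 1 ∨ c = 2) ∧
  (∃ k, 1 ≤ k ∧ w.filter (fun c => decide (c ≠ 2)) = 0 :: 1 :: List.replicate k 0) ∧
  (∃ j, 2 ≤ j ∧ w.filter (fun c => decide (c ≠ 0)) = List.replicate j 2 ++ [1])

/-- the words `x y t m`, `m` a word in `x, y` which contains both (`x = 0`, `y = 1`, `t = 2`) -/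
def PC (w : List ℕ) : Prop :=
  ∃ m : List ℕ, w = 0 :: 1 :: 2 :: m ∧ (∀ c ∈ m, c = 0 ∨ c = 1) ∧ 0 ∈ m ∧ 1 ∈ m

/-- letters `x = 0`, `y = 1`, `t = 2`, `s = 3`: types `x t x^k s` and `y t s y^l` -/
def PD (w : List ℕ) : Prop :=
  (∀ c ∈ w, c = 0 ∨ c = 1 ∨ c = 2 ∨ c = 3) ∧
  (∃ k, 1 ≤ k ∧ w.filter (fun c => decide (c ≠ 1)) = 0 :: 2 :: (List.replicate k 0 ++ [3])) ∧
  (∃ l, 1 ≤ l ∧ w.filter (fun c => decide (c ≠ 0)) = 1 :: 2 :: 3 :: List.replicate l 1)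

/-- NTY (medium, uses MWF.POW, MWF.CTT, MWF.SIM).  The type `x t x^k` is preserved.
Proof.  By CTT the letters of `w'` are `x, t`, by SIM `w'.count t = 1`, so
`w' = x^a t x^b` (`List.append_of_mem` at `t`, both parts consist of `x`: `List.eq_replicate_iff`).
`w'.count x ≠ 1` (SIM for `RR.symm`, the left side has `k + 1 ≥ 2` letters `x`), so `a + b ≥ 2`.
Substitute `x ↦ [0]`, `t ↦ [1]`: `RR β (0 1 0^k) (0^a 1 0^b)`, and `0 1 0^k ~ 0 1 0` (`k = 1`: equal;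
`k ≥ 2`: POW and `gm`).  Note `0^c 0 1 0 ~ 0^c 0 1 0 0` for all `c` by `gm`.
`a ≥ 2`, `b ≥ 1`: `0^a 1 0^b ~ [0,0,1,0,0]` (POW, `gm`), so `[0,1,0] ~ [0,0,1,0,0]`, excluded.
`a ≥ 2`, `b = 0`: `[0,1,0] ~ [0,0,1]`; append `0`: `[0,1,0] ~ [0,1,0,0] ~ [0,0,1,0]`, as before.
`a = 0`: `b ≥ 2`, `[0,1,0] ~ 1 0^b`; put `0` in front: `[0,0,1,0] ~ 0 1 0^b ~ [0,1,0]`, as before.
`a = 1`: `b ≥ 1` since `a + b ≥ 2`.  This is the claim. -/
def NtyStmt : Prop := ∀ β : FIC, Gw β → ∀ (x t : ℕ), x ≠ t → ∀ (k : ℕ) (w' : List ℕ), 1 ≤ k →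
  RR β (x :: t :: List.replicate k x) w' → ∃ k', 1 ≤ k' ∧ w' = x :: t :: List.replicate k' x

/-- NAA (medium, uses MWF.POW, MWF.CTT, MWF.SIM, MWF.ZER).  If idempotents do not commute, the
words `x^i y^j` are preserved.
Proof.  Let `RR β w w'`, `w = 0^i 1^j`, `i, j ≥ 2`.  CTT, SIM (for `RR.symm`): `w'` is a word in
`0, 1` with `w'.count 0 ≥ 2`, `w'.count 1 ≥ 2`.  Suppose `¬ PA w'`.  Then
`w' = 0^a ++ 1^b ++ 0 :: r` with `b ≥ 1` (`List.span` / `takeWhile` of the zeros, then of the ones;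
if nothing remains then `w' = 0^a 1^b` with `a, b ≥ 2`).  Substitute `c ↦ [c, c]`, put `[0,0]` in
front and `[1,1]` behind.  Left side: powers of `0` and of `1`, `~ [0,0,1,1]` (POW).  Right side:
`[0,0] 0^{2a} 1^{2b} [0,0] (dbl r) [1,1] ~ [0,0,1,1,0,0] (dbl r) [1,1]` (POW).  Claim:
`[0,0,1,1,0,0] ++ dbl r ++ [1,1] ~ Z`, `Z = [0,0,1,1,0,0,1,1]`: induction on `r`; `r = []`: equal;
`r = 0 :: r'`: `0^4 ~ 0^2`; `r = 1 :: r'`: `Z ++ (dbl r' ++ [1,1]) ~ Z` by ZER (b) with `u = [0,1]`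
(`Z = dbl [0,1] ++ dbl [0,1]`).  So `[0,0,1,1] ~ Z`.  Exchange the names:
`[1,1,0,0] ~ dbl [1,0] ++ dbl [1,0] ~ Z` by ZER (a).  So `[0,0,1,1] ~ [1,1,0,0]`. -/
def NaaStmt : Prop := ∀ β : FIC, ModF β → Ap β → ¬ RR β [0, 0, 1, 1] [1, 1, 0, 0] →
  ∀ w w' : List ℕ, RR β w w' → PA w → PA w'

/-- NKA (easy-medium).  `x t x ≈ x^2 t x` preserves the words `x^i y^j`.
Proof: `RR_gaml`, `X = f 0`, `Y = f 1`: `PA (p X Y X q) ↔ PA (p X X Y X q)`.  `X = []`: equal.  In a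
word `0^i 1^j` no `0` is behind a `1`.  If `1 ∈ X`, everything behind the first `X`, in particular
`Y` and the last `X`, consists of `1`, so `X = 1^a`, `Y = 1^b`, and the two words differ only in
the number of the letters `1` in one place: `0^i 1^j`, `0^i 1^(j + a)`.  (←: `j + a ≥ 3 a`, so
`j ≥ 2 a ≥ 2`.)  If `1 ∉ X`: `X = 0^a`, then `Y` is in front of a `0`, so `Y = 0^b`, and the words
are `0^i 1^j`, `0^(i + a) 1^j`, in the same way. -/
def NkaStmt : Prop := RR (gaml PA) [0, 1, 0] [0, 0, 1, 0]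

/-- NPB (medium, uses MWF.CTT, NTY).  `PB` is preserved, if `PA` is preserved.
Proof.  Let `RR β w w'`, `PB w`.  Content: CTT (the letters of `w'` are in `w`).  `RR.filter`
(`c ≠ 2`): NTY with `x = 0`, `t = 1`.  `RR.filter` (`c ≠ 0`): `RR β (2^j 1) v'` with
`v' = w'.filter (c ≠ 0)`.  Substitute `2 ↦ [0]`, `1 ↦ [1, 1]`: the left side is `0^j 1 1`, in `PA`;
so the image of `v'` is in `PA`: it is `0^a ++ 1^b`, `a, b ≥ 2`.  `v'` is a word in `1, 2` (CTT) with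
exactly one `1`: its image has `2 (v'.count 1)` letters `1`, and `v'.count 1 = 1` because `v'` and
`w'.filter (c ≠ 2)` have the same number of letters `1`.  So `v' = 2^c ++ 1 :: 2^d`, image
`0^c 1 1 0^d` in `PA`: `d = 0`, `c = a ≥ 2`. -/
def NpbStmt : Prop := ∀ β : FIC, Gw β → (∀ w w' : List ℕ, RR β w w' → PA w → PA w') →
  ∀ w w' : List ℕ, RR β w w' → PB w → PB w'

/-- NTB (medium).  Two pairs preserve `PB`, the second one does not move any word of `PB`.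
Proof.  `X = f 0`, `T = f 1`, `Y = f 2`.
(1) `PB (p X Y Y T X q) ↔ PB (p Y Y X T X q)`: `RR_gaml`.  Suppose one of them.  The letter `1`
occurs once (count of `w.filter (c ≠ 2)`), `X` and `Y` occur twice, so `1 ∉ X`, `1 ∉ Y`.  The
filters `c ≠ 2` of `X` and `Y` are powers of `0` (their letters are `0, 1, 2`, without `1`), so they
commute and both words have the same filter `c ≠ 2` (`List.filter_append`); in the same way the
filters `c ≠ 0` are powers of `2`.  The contents are equal.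
(2) Suppose `PB (p X X Y Y T X q)` or `PB (p Y Y X X T X q)`.  `1 ∉ X`, `1 ∉ Y`.  If `1 ∈ p`: behind
the `1` there is no `2` (filter `c ≠ 0` ends with `1`), so `X`, `Y` are powers of `0` and commute.
If `1 ∉ p`: `X X Y Y` is in front of the `1`, where there is only one `0` (filter `c ≠ 2` begins
with `0 1`), so `0 ∉ X`, `0 ∉ Y`, both are powers of `2` and commute.  In both cases
`X X Y Y = Y Y X X`. -/
def NtbStmt : Prop := RR (gaml PB) [0, 2, 2, 1, 0] [2, 2, 0, 1, 0] ∧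
  ∀ (f : ℕ → List ℕ) (p q : List ℕ),
    (PB (p ++ [0, 0, 2, 2, 1, 0].flatMap f ++ q) ∨ PB (p ++ [2, 2, 0, 0, 1, 0].flatMap f ++ q)) →
      p ++ [0, 0, 2, 2, 1, 0].flatMap f ++ q = p ++ [2, 2, 0, 0, 1, 0].flatMap f ++ q

/-- NR0 (medium, uses NAA, NKA, NPB, NTB).  **In the gamma
world outside beta modularity forces `x^2y^2 ≈ y^2x^2`.**
Proof.  Suppose not.  Let `u = [0,2,2,1,0]`, `v = [2,2,0,1,0]`, `σ = gaml PA`, `τ = gaml PB`,
`P w := PB w ∧ RR σ w u`, `ρ = FIC.inf (gaml P) τ`.  `β ≤ σ`: NAA and `le_gaml`.  `β ≤ τ`: NPB.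
`β ≤ gaml P` (`le_gaml`: `RR β a b` and `P a` give `PB b`, and `RR σ b u` by `β ≤ σ`).  So
`β ≤ ρ ≤ τ` (`FIC.le_inf`, `FIC.inf_le_right`).  `(u, v)` in `τ`: NTB (1).  Chain:
`u ~σ [0,0,2,2,1,0]` (NKA with `0 ↦ [0]`, `1 ↦ [2,2,1]`), `[0,0,2,2,1,0] ~ρ [2,2,0,0,1,0]` (NTB (2)
and `RR_gaml`: for `gaml P` and for `gaml PB` the two words are equal as soon as one of them
satisfies `P` resp. `PB`, so `P .. ↔ P ..`), `[2,2,0,0,1,0] ~σ v` (`[2,2]` in front of NKA).  So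
`(u, v)` is in `FIC.sup ρ σ`.  `pent` with this `P`: `ρ` preserves `P` (`gaml_keep`), a pair of `σ`
and `τ` preserves `P` (`gaml_keep` for `PB`, transitivity of `σ`), `P u` (`PB u`: `k = 1`, `j = 2`).
So `P v`, in particular `RR σ v u`.  Substitute `0 ↦ [1,1]`, `2 ↦ [0]`, `1 ↦ []`:
`RR σ [0,0,1,1,1,1] [1,1,0,0,1,1]`; the left word is in `PA`, so the right one is (`gaml_keep`),
but it begins with `1` and contains `0`: contradiction. -/
def Nr0Stmt : Prop := ∀ β : FIC, ModF β → Gw β → RR β [0, 0, 1, 1] [1, 1, 0, 0]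

/-- NMC (medium, uses MWF.CTT, MWF.SIM, NTY).  `PC` is preserved, if `xytxy ≈ yxtxy` does not hold.
Proof.  Let `RR β w w'`, `w = 0 1 2 m`.  Content: the letters of `w'` are `0, 1, 2`.  Filters
`c ≠ 1` and `c ≠ 0` and NTY (`x = 0, t = 2` and `x = 1, t = 2`): `w'.filter (c ≠ 1) = 0 2 0^k`,
`w'.filter (c ≠ 0) = 1 2 1^l`, `k, l ≥ 1`.  So `w' = b ++ 2 :: m'` where `b` contains `0` once and
`1` once, `m'` is a word in `0, 1` with both letters: `b = [0,1]` or `b = [1,0]`.  In the first case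
`PC w'`.  Second case: `RR β (0 1 2 m) (1 0 2 m')`.  Every word `0 1 2 m` with `m` as above is
equivalent to `0 1 2 0 1`, the same for `1 0 2 m'`: let `A` be a word which contains `0` and `1`;
`A ++ [c] ~ A ++ [c, c]` for `c = 0, 1` (`gm`), `A ++ [0,1] ~ A ++ [0,0,1,1] ~ A ++ [1,1,0,0] ~
A ++ [1,0]`, the same with a word behind.  By induction on the length `A ++ m ~ A ++ [0,1]` for
every word `m` in `0, 1` with both letters (sort by these exchanges: `A ++ 0^i 1^j`, `i, j ≥ 1`, and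
reduce the powers).  So `[0,1,2,0,1] ~ [1,0,2,0,1]`, excluded. -/
def NmcStmt : Prop := ∀ β : FIC, Gw β → RR β [0, 0, 1, 1] [1, 1, 0, 0] →
  ¬ RR β [0, 1, 2, 0, 1] [1, 0, 2, 0, 1] → ∀ w w' : List ℕ, RR β w w' → PC w → PC w'

/-- NEC (easy-medium).  `x^2 t ≈ x^2 t x` and `x t x ≈ x t x^2` preserve `PC`.
Proof: `RR_gaml`, `X = f 0`, `T = f 1`.  First pair: `PC (p X X T q) ↔ PC (p X X T X q)`.  `X = []`:
equal.  Suppose one of them.  `2 ∉ X` (`2` occurs once).  The factor `X X` is not in the part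
`0 1` in front of the `2` (it would be two equal letters or longer), so it is behind the `2`,
`2 ∈ p`, `p = 0 1 2 p'`; adding or deleting the last `X`, a word in `0, 1` whose letters occur
also in `X X`, keeps `PC`.  Second pair: `PC (p X T X q) ↔ PC (p X T X X q)`: `2 ∉ X`.  The second
`X` is behind the `2`: otherwise `X T X` is a part of `0 1` in front of the `2`: a letter would occur
twice.  So adding or deleting one more copy of `X` behind it keeps `PC` (the letters of `X` occur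
still in the second `X`). -/
def NecStmt : Prop := RR (gaml PC) [0, 0, 1] [0, 0, 1, 0] ∧ RR (gaml PC) [0, 1, 0] [0, 1, 0, 0]

/-- NMD (medium, uses MWF.POW, MWF.CTT, MWF.SIM, NTY).  `PD` is preserved, if `x^2y ≈ x^2yx` does
not hold.
Proof.  Let `RR β w w'`, `PD w`.  Content by CTT.  (1) `RR.filter (c ≠ 1)`:
`0 2 0^k 3 ~ w₁ := w'.filter (c ≠ 1)`.  Filter `c ≠ 3` in addition: `w₁.filter (c ≠ 3) = 0 2 0^a`,
`a ≥ 1` (NTY).  `w₁.count 3 = 1` (SIM).  Filter `c ≠ 2` in addition: `0 0^k 3 ~ w₂`, the position of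
`3`: `w₂ = 0^b 3 0^c`, `b + c = a + 1`.  Suppose `c ≥ 1`.  `0^(k+1) ~ [0,0]`: rename `3 ↦ 1`:
`[0,0,1] ~ 0^b 1 0^c`.  `b ≥ 2`: `0^b ~ 0 0`, `0 0 1 0^c ~ 0 0 1 0` (`gm` with a `0` in front, POW):
`[0,0,1] ~ [0,0,1,0]`, excluded.  `b ≤ 1`: put `0 0` in front: `[0,0,1] ~ 0^4 1 ~ 0^(b+2) 1 0^c ~
[0,0,1,0]`, excluded.  So `c = 0`, and together with `0 2 0^a`: `w₁ = 0 2 0^a 3`.
(2) `RR.filter (c ≠ 0)`: `1 2 3 1^l ~ w₃`.  Filter `c ≠ 3`, NTY (`x = 1`, `t = 2`): `1 2 1^a`,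
`a ≥ 1`.  Filter `c ≠ 2`, NTY (`x = 1`, `t = 3`): `1 3 1^b`, `b ≥ 1`.  So `w₃` begins with `1`, the
other `1` are behind `2` and behind `3`; `2` is in front of `3` by (1).  So `w₃ = 1 2 3 1^b`. -/
def NmdStmt : Prop := ∀ β : FIC, Gw β → ¬ RR β [0, 0, 1] [0, 0, 1, 0] →
  ∀ w w' : List ℕ, RR β w w' → PD w → PD w'

/-- NTD (medium).  `x y t x s y ≈ y x t x s y` preserves `PD`; `xytxy ≈ yxtxy` does not move any word
of `PD`.
Proof.  `X = f 0`, `Y = f 1`, `T = f 2`, `S = f 3`.  (1) As NTB (1): `2, 3 ∉ X`, `2, 3 ∉ Y` (they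
occur once in a word of `PD`, `X` and `Y` occur twice), the filters `c ≠ 1` of `X` and `Y` are
powers of `0`, the filters `c ≠ 0` are powers of `1`, so both words have the same filters.
(2) Let `w = p X Y T X Y q` or `w = p Y X T X Y q` be in `PD`.  `2, 3 ∉ X, Y`; if `X = []` or
`Y = []` or both are powers of the same letter, the two words are equal.  Otherwise `Z := X Y` (the
second copy, a factor without `2, 3`) contains `0` and `1`.  In a word of `PD` the only place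
between two of the letters `2, 3` (or before `2`, or behind `3`) which contains `0` and `1` is the
part in front of the `2` (between `2` and `3` there are only `0`, behind `3` only `1`).  So the
second copy of `X Y` and hence all of `X, Y, T, X, Y` is in front of the `2`, where there is only
one `0`; but `0` occurs in `X Y` and in the copy in front of `T`: contradiction. -/
def NtdStmt : Prop := RR (gaml PD) [0, 1, 2, 0, 3, 1] [1, 0, 2, 0, 3, 1] ∧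
  ∀ (f : ℕ → List ℕ) (p q : List ℕ),
    (PD (p ++ [0, 1, 2, 0, 1].flatMap f ++ q) ∨ PD (p ++ [1, 0, 2, 0, 1].flatMap f ++ q)) →
      p ++ [0, 1, 2, 0, 1].flatMap f ++ q = p ++ [1, 0, 2, 0, 1].flatMap f ++ q

/-- ND1 (medium, uses NMC, NEC, NMD, NTD).  **In the gamma world outside beta
modularity forces `x^2y ≈ x^2yx` or `xytxy ≈ yxtxy`.**
Proof.  Suppose that both fail.  `u = [0,1,2,0,3,1]`, `v = [1,0,2,0,3,1]`, `σ = gaml PC`,
`τ = gaml PD`, `P w := PD w ∧ RR σ w u`, `ρ = FIC.inf (gaml P) τ`.  `β ≤ σ` (NMC), `β ≤ τ` (NMD),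
`β ≤ gaml P` (as in NR0), so `β ≤ ρ ≤ τ`.  `(u, v)` in `τ`: NTD (1).  Chain: in `σ`
`x t x s ~ x t x x s ~ x t x x s x ~ x t x s x` (NEC: `gm`, then `x^2 s ~ x^2 s x`, then `gm`); with
`t ↦ [1,2]`, `x ↦ [0]`, `s ↦ [3]` and `[1]` behind: `u ~σ [0,1,2,0,3,0,1]`.  In `ρ`:
`[0,1,2,0,3,0,1] ~ρ [1,0,2,0,3,0,1]` (`xytxy ~ρ yxtxy` with `t ↦ [2,0,3]`; `xytxy ~ yxtxy` is in
`gaml P` and in `gaml PD` by NTD (2) as in NR0).  In `σ`: `[1,0,2,0,3,0,1] ~σ v` (`[1]` in front,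
`t ↦ [2]`).  So `(u, v)` is in `FIC.sup ρ σ`.  `pent`: `P v`, so `RR σ v u`.  Delete the letter `3`
(substitution): `RR σ [1,0,2,0,1] [0,1,2,0,1]`; the right word is in `PC`, so the left one is:
contradiction. -/
def Nd1Stmt : Prop := ∀ β : FIC, ModF β → Gw β → RR β [0, 0, 1, 1] [1, 1, 0, 0] →
  RR β [0, 0, 1] [0, 0, 1, 0] ∨ RR β [0, 1, 2, 0, 1] [1, 0, 2, 0, 1]

/-- GAM (easy, uses NR0, ND1).  **Necessity in the gamma world.** -/
def GamStmt : Prop := ∀ β : FIC, ModF β → Ap β → RR β [0, 1, 0] [0, 1, 0, 0] →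
  ¬ RR β [0, 1, 0] [0, 0, 1, 0, 0] →
    RR β [0, 0, 1, 1] [1, 1, 0, 0] ∧
      (RR β [0, 0, 1] [0, 0, 1, 0] ∨ RR β [0, 1, 2, 0, 1] [1, 0, 2, 0, 1])

end Pool.Agent.MWK
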