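import Pool.Agent.MWK.Defs

/-!
# MWK: the fully invariant congruences above K form a chain (rows)

MP_23468a_al, full answer.  `Kc θ` : `xyx ≈ xyx^2`, `x^2y ≈ x^2yx`, `x^2y^2 ≈ y^2x^2` are in `θ`.
Every row is self contained, its complete proof is in the docstring.  Tools: `RR.append`, `RR.sub`
(substitution, `flatMap`), `RR.filter`, `RR.symm`, `RR.refl`, `θ.trans` (file
Helper2_MV/Keep), all lemmas on `pre`, `Dp`, `Chc`, `Ag` in MWK/Defs.lean.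
-/

namespace Pool.Agent.MWK

open Pool.Agent.Helper14_MV Pool.Agent.Helper2_MV

/-! ## The congruence K -/

/-- FRE (easy-medium).  A letter which has occurred twice can be inserted.
Proof: induction on `M`; the step is `M = [x]`, `2 ≤ P.count x` (then
`P ++ x :: M' ++ Q = (P ++ [x]) ++ M' ++ Q`, induction hypothesis for the prefix `P ++ [x]`, and then
the step).  Step: `P = a ++ x :: b ++ x :: c`.  `Kc.g` with `0 ↦ [x]`, `1 ↦ b`:
`x b x ~ x b x x`.  `Kc.e` with `0 ↦ [x]`, `1 ↦ c`: `x x c ~ x x c x`.  So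
`x b x c ~ x b (x x c) ~ x b (x x c x) = (x b x x) c x ~ x b x c x`.  Put `a` in front and `Q`
behind. -/
def FreStmt : Prop := ∀ θ : FIC, Kc θ → ∀ P M Q : List ℕ, (∀ l ∈ M, 2 ≤ P.count l) →
  RR θ (P ++ M ++ Q) (P ++ Q)

/-- SWK (easy, uses FRE).  Adjacent letters which are both not first occurrences commute.
Proof: `P a b Q ~ P a a b b Q` by FRE (insert `a` after `P ++ [a]`, and `b` after
`P ++ [a, a, b]`), `a a b b ~ b b a a` by `Kc.c`, and back: `P b b a a Q ~ P b a Q`. -/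
def SwkStmt : Prop := ∀ θ : FIC, Kc θ → ∀ (P : List ℕ) (a b : ℕ) (Q : List ℕ), a ∈ P → b ∈ P →
  RR θ (P ++ a :: b :: Q) (P ++ b :: a :: Q)

/-- CLO (medium, uses FRE).  Closed factors depend only on their letters.
Proof.  (1) `x^2 ~ x^3` (`Kc.g` with `1 ↦ []`).  (2) If `l ∈ Z` then `l :: dbl Z ~ dbl Z`:
induction on `Z = z :: Z'`, `dbl Z = z :: z :: dbl Z'`.  `l = z`: (1).  Otherwise `l ∈ Z'`,
`dbl Z' ~ l :: dbl Z' ~ l :: l :: dbl Z'` by the induction hypothesis, so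
`z z dbl Z' ~ z z l l dbl Z' ~ l l z z dbl Z'` (`Kc.c`); put `l` in front, `l l l ~ l l`, go back.
Hence `M ++ dbl Z ~ dbl Z` for every list `M` of letters of `Z`.  (3) `dbl Z ~ dbl Z'` if `Z`, `Z'`
have the same letters: `dbl Z ~ dbl Z ++ dbl Z'` (FRE with the prefix `dbl Z`) and
`dbl Z ++ dbl Z' ~ dbl Z'` by (2).  (4) `P Z Q ~ P Z (dbl Z) Q` by FRE, `~ P (dbl Z) Q` by (2),
the same for `Z'`, and (3). -/
def CloStmt : Prop := ∀ θ : FIC, Kc θ → ∀ P Z Z' Q : List ℕ, (∀ l, l ∈ Z ↔ l ∈ Z') →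
  (∀ l ∈ Z, 2 ≤ (P ++ Z).count l) → (∀ l ∈ Z', 2 ≤ (P ++ Z').count l) →
    RR θ (P ++ Z ++ Q) (P ++ Z' ++ Q)

/-- TRU (easy-medium, uses FRE).  Truncation: only the first two occurrences of every letter.
Proof: induction on `u` from the right (`List.reverseRecOn`), `u = u₁ ++ [z]`, `u₁' ` given.  If
`2 ≤ u₁.count z` take `u' = u₁'` (FRE deletes `z`; to use it for `u₁ ++ [z]` append first).  Then
`u₁'.count z = 2` by the agreement, and for `y`: if `y ∈ u₁` (iff `y ∈ u₁'`) `pre` does not change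
(`pre_append_mem`); otherwise `pre (u₁ ++ [z]) y` is `u₁ ++ [z]` or `u₁` (`pre_append`,
`pre_not_mem`), and the number of `z` is at least 2 in all of them.  Otherwise take
`u' = u₁' ++ [z]` (`u₁'.count z ≤ 1` by the agreement). -/
def TruStmt : Prop := ∀ θ : FIC, Kc θ → ∀ u : List ℕ, ∃ u', RR θ u u' ∧ (∀ x, u'.count x ≤ 2) ∧
  Ag (fun _ _ _ => True) u u'

/-! ## Depth and agreement -/

/-- DAG (easy-medium).  Agreement of type F of level m gives the same depth up to m+1.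
Proof: induction on `k ≤ m + 1`.  `k + 1`: `Dp (k+1) u x` iff `u.count x = 1` or there is `y` with
`Dp k u y`, `(pre u y).count x = 1`.  `Ag.count_one`; `Dp k u y ↔ Dp k v y` by induction, and then
`Dp m v y` (`Dp.le`), so `FF m v y x i` holds for `i = 0, 1`: `Ag.pre_count_one`. -/
def DagStmt : Prop := ∀ (m : ℕ) (u v : List ℕ), Ag (FF m v) u v → ∀ k ≤ m + 1, ∀ x,
  Dp k u x ↔ Dp k v x

/-- INV (easy, uses DAG).  The three families depend only on the class of agreement.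
Proof: `Ag.weaken` to type `FF m` and DAG (levels `m`, `m+1`, `e ≤ m+1`). -/
def InvStmt : Prop := ∀ (m : ℕ) (u v : List ℕ),
  (Ag (FF m v) u v → ∀ y x i, FF m u y x i ↔ FF m v y x i) ∧
  (Ag (FB m v) u v → ∀ y x i, FB m u y x i ↔ FB m v y x i) ∧
  (∀ e ≤ m + 1, Ag (FD m e v) u v → ∀ y x i, FD m e u y x i ↔ FD m e v y x i)

/-- SWA (easy-medium).  An invisible exchange keeps the agreement.
Proof: the words have the same counts.  Let `y` be a letter.  `y ∈ P`: `pre` is `pre P y` for both.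
`y ∉ P`, `y ≠ a`, `y ≠ b`: `pre` is `P ++ a :: b :: pre Q y`, `P ++ b :: a :: pre Q y`, same counts.
`y = a ∉ P`: `pre` is `P` and `P ++ [b]`; the counts differ only for `x = b`: `c = P.count b` and
`c + 1`.  `F a b c` is false.  `c = 0`: the clause `i = 0` is void, the clause `i = 1` is
`2 ≤ 0 ↔ 2 ≤ 1`.  `c = 1`: the clause `i = 1` is void, `i = 0` is `1 ≤ 1 ↔ 1 ≤ 2`.  `c ≥ 2`: both
sides are true.  `y = b ∉ P`: the same with `P ++ [a]` and `P`. -/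
def SwaStmt : Prop := ∀ (F : ℕ → ℕ → ℕ → Prop) (P : List ℕ) (a b : ℕ) (Q : List ℕ), a ≠ b →
  ¬ (a ∉ P ∧ F a b (P.count b)) → ¬ (b ∉ P ∧ F b a (P.count a)) →
    Ag F (P ++ a :: b :: Q) (P ++ b :: a :: Q)

/-- SRT (medium, uses SWA).  Sorting: agreeing truncated words are connected by invisible
exchanges.
Proof.  Claim, by induction on `v'` for all `R, u'`: if `v = R ++ v'`, `Ag F (R ++ u') v`,
`u'.count x = v'.count x` for all `x`, then `RR θ (R ++ u') v`.  `v' = []`: `u' = []`.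
`v' = c :: v''`: `u' = P₁ ++ c :: Q`, `c ∉ P₁` (`List.eq_append_cons_of_mem`).  Move `c` to the front
of `P₁`, one letter after the other (induction on `P₁` from the right, for all `Q`):
`W = R ++ P₂ ++ a :: c :: Q'` to `W' = R ++ P₂ ++ c :: a :: Q'`, where `c ∉ P₂`, `a ≠ c` and
`Ag F W v`.  Let `P = R ++ P₂`.  `P.count a ≤ 1`, `P.count c ≤ 1` since `W.count ≤ 2`.
(α) not (`a ∉ P` and `F a c (P.count c)`): `pre W a = P`, `i := P.count c = R.count c ≤ 1`; in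
`v = R ++ c :: v''` we have `a ∉ R`, so `(pre v a).count c ≥ i + 1`; the agreement for `(a, c, i)`
says `i + 1 ≤ i ↔ i + 1 ≤ (pre v a).count c`: false.  (β) not (`c ∉ P` and `F c a (P.count a)`):
`pre W c = P ++ [a]` has `j + 1` letters `a`, `j = P.count a ≤ 1`; `pre v c = R` (`c ∉ R`) has at
most `j`; the agreement for `(c, a, j)` says `j + 1 ≤ j + 1 ↔ j + 1 ≤ R.count a`: false.  So the
exchange is in `θ`, and `Ag F W' v` by SWA, `Ag.symm`, `Ag.trans`.  At the end use the induction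
hypothesis for `R ++ [c]`, `u'' = P₁ ++ Q`. -/
def SrtStmt : Prop := ∀ (θ : FIC) (F : ℕ → ℕ → ℕ → Prop) (v : List ℕ), (∀ x, v.count x ≤ 2) →
  (∀ (P : List ℕ) (a b : ℕ) (Q : List ℕ), a ≠ b → P.count a ≤ 1 → P.count b ≤ 1 →
    Ag F (P ++ a :: b :: Q) v → ¬ (a ∉ P ∧ F a b (P.count b)) → ¬ (b ∉ P ∧ F b a (P.count a)) →
      RR θ (P ++ a :: b :: Q) (P ++ b :: a :: Q)) →
    ∀ u, (∀ x, u.count x = v.count x) → Ag F u v → RR θ u v

/-- DER (easy-medium, uses TRU SRT).  Invisible exchanges give all agreeing pairs.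
Proof: truncate `u ~ u'`, `v ~ v'` (TRU).  From `Ag True u u'` we get `Ag (F u') u u'`, hence
`F u = F u'`, same for `v`.  So `Ag (F v') u' v'` (`Ag.trans`, `Ag.symm`, `Ag.weaken`).  The counts
of `u'` and `v'` are at most 2 and agree, so they are equal.  SRT with the family `F v'`: if
`Ag (F v') W v'` then `F W = F v'` by hypothesis, and `Bt F θ` gives the exchange. -/
def DerStmt : Prop := ∀ F : List ℕ → ℕ → ℕ → ℕ → Prop,
  (∀ u v, Ag (F v) u v → ∀ y x i, F u y x i ↔ F v y x i) → ∀ θ : FIC, Kc θ → Bt F θ →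
    ∀ u v, Ag (F v) u v → RR θ u v

/-! ## Segments -/

/-- CUT (easy).  Cut `Q` in front of the first new letter with the property `D`.
Proof: induction on `Q` for all `A`.  `Q = t :: Q'`: if `t ∉ A` and `D t`, take `q = []`.  Otherwise
take `q = t :: q'` with `q'` from the induction hypothesis for `A ++ [t]`. -/
def CutStmt : Prop := ∀ (D : ℕ → Prop) (A Q : List ℕ), ∃ q R, Q = q ++ R ∧
  (∀ z ∈ q, z ∉ A → ¬ D z) ∧ (R = [] ∨ ∃ t R', R = t :: R' ∧ t ∉ A ++ q ∧ D t)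

/-- TWC (easy).  In front of a wall of level k the letters of depth > k+1 have occurred twice.
Proof: `(A ++ q).count z ≥ 1`.  `R = []`: `w = A ++ q`, the count is not 1 (`Dp.simple`).
`R = t :: R'`: `pre w t = A ++ q` (`pre_split`), the count is not 1 (`Dp.step`). -/
def TwcStmt : Prop := ∀ (w A q R : List ℕ) (k : ℕ), w = A ++ q ++ R →
  (R = [] ∨ ∃ t R', R = t :: R' ∧ t ∉ A ++ q ∧ Dp k w t) → ∀ z ∈ A ++ q, ¬ Dp (k + 1) w z →
    2 ≤ (A ++ q).count z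

/-- SEG (medium, uses CUT TWC).  Decomposition of the rest of a word into m segments.
Proof: induction on `m` for all `A, Q, S`.  `m = 0`: `qs = []`, `R = Q`.  `m + 1`: CUT with
`D = Dp m w`: `Q = q ++ Q₁`.  By TWC (k = m): every `z ∈ A ++ q` with `¬ Dp (m+1) w z` has
`2 ≤ (A ++ q).count z`; this is the first clause of `Ok` for `z ∈ S` and the clause `j = 0`.
Induction hypothesis for `A ++ q`, `Q₁`, `S = q`, `m`: a letter `z ∈ q` with `z ∈ A` has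
`2 ≤ (A ++ q).count z`, a letter `z ∈ q`, `z ∉ A` has `¬ Dp m w z`.  `qs = q :: qs'`; the clause
`j + 1` is the clause `j` for `A ++ q` (`m + 1 - (j + 1) = m - j`,
`((q :: qs').take (j + 2)).flatten = q ++ (qs'.take (j + 1)).flatten`). -/
def SegStmt : Prop := ∀ (m : ℕ) (w A Q S : List ℕ), w = A ++ Q →
  (∀ z ∈ S, 2 ≤ A.count z ∨ (z ∈ A ∧ ¬ Dp m w z)) →
    ∃ (qs : List (List ℕ)) (R : List ℕ), qs.length = m ∧ Q = qs.flatten ++ R ∧ Ok A S qs ∧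
      ∀ j < m, ∀ l ∈ A, ¬ Dp (m - j) w l → 2 ≤ (A ++ (qs.take (j + 1)).flatten).count l

/-- OKM (easy).  Monotonicity of `Ok`.  Proof: induction on `qs` for all `A, A', p, p'`. -/
def OkmStmt : Prop := ∀ (qs : List (List ℕ)) (A A' p p' : List ℕ), Ok A p qs →
  (∀ l, A.count l ≤ A'.count l) → (∀ z ∈ p', z ∈ p) → Ok A' p' qs

/-! ## From word bits to exchanges -/

/-- TGF (easy, uses SEG).  Proof: `w = (P ++ [a, b]) ++ Q`.  The hypotheses say `a ∈ P` or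
`¬ Dp m w a`, the same for `b`.  SEG with `A = P ++ [a, b]`, `S = [a, b]` (if `a ∈ P` then
`2 ≤ A.count a`).  `WF` with `X = [a]`, `Y = [b]`. -/
def TgfStmt : Prop := ∀ (θ : FIC) (m : ℕ), WF m θ → Bt (FF m) θ

/-- MVL (easy-medium, uses FRE OKM).  Proof: (1) `WB` with `P`, `X = [b, b]`, `C = S ++ [b]`:
`P bb Sb qs R ~ P Sb bb qs R`.  (2) `WB` with `P ++ [b]`, `X = [b]`, `C = S ++ [b]`:
`P b b Sb qs R ~ P b Sb b qs R`.  (`Ok` by OKM, the prefixes contain more letters.)  FRE: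
`P S b b b qs R ~ P S b b qs R` and `P b S b b qs R ~ P b S b qs R`.  Together:
`P b S b qs R ~ P b S b b qs R ~ P b b S b qs R ~ P S b b b qs R ~ P S b b qs R`. -/
def MvlStmt : Prop := ∀ θ : FIC, Kc θ → ∀ m, WB m θ → ∀ (P : List ℕ) (b : ℕ) (S : List ℕ)
  (qs : List (List ℕ)) (R : List ℕ), qs.length = m → Ok (P ++ [b] ++ S ++ [b]) (S ++ [b]) qs →
    RR θ (P ++ [b] ++ S ++ [b] ++ qs.flatten ++ R) (P ++ S ++ [b, b] ++ qs.flatten ++ R)

/-- TGB (medium, uses SWK SEG OKM CUT TWC MVL).  Let `w = P ++ a :: b :: Q`.  The hypotheses give: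
`a ∈ P ∨ ¬ Dp m w a`, `b ∈ P ∨ ¬ Dp m w b`, and if `a ∉ P`, `b ∉ P` then `¬ Dp (m+1) w a` or
`¬ Dp (m+1) w b` (`P.count b = 0`).  Cases: (1) `a, b ∈ P`: SWK.  (2) `a ∉ P`, `b ∈ P`: SEG with
`A = P ++ [a, b]`, `S = [a]`, level m; `WB` with `X = [b]`, `C = [a]` (`2 ≤ (P ++ [b]).count b`;
`Ok (P ++ [b] ++ [a])` by OKM), then `RR.symm`.  (3) `a ∈ P`, `b ∉ P`: the same with `X = [a]`,
`C = [b]`.  (4) `a, b ∉ P`, `¬ Dp (m+1) w b` (and `¬ Dp m w a`): CUT with `D = Dp m w`,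
`A = P ++ [a, b]`: `Q = q ++ Q'`; TWC: `2 ≤ (A ++ q).count b`, so `b ∈ q`,
`q = Q₁ ++ b :: q'`; `Q = Q₁ ++ b :: Q₂`.  SEG with `A° = P ++ a :: b :: Q₁ ++ [b]`, rest `Q₂`,
`S° = a :: Q₁ ++ [b]`, level m (letters `z ∈ Q₁`: `z ∈ A` gives `2 ≤ A°.count z`, otherwise
`¬ Dp m w z`; `2 ≤ A°.count b`; `¬ Dp m w a`).  MVL with `P ++ [a]`, `b`, `S = Q₁`:
`w = P a b Q₁ b Q₂ ~ P a Q₁ b b Q₂`.  MVL with `P`, `b`, `S = a :: Q₁`:
`w' = P b (a Q₁) b Q₂ ~ P (a Q₁) b b Q₂`.  The right sides are equal.  (5) `a, b ∉ P`,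
`¬ Dp (m+1) w a` (and `¬ Dp m w b`): in the same way `Q = Q₁ ++ a :: Q₂`,
`w = P a (b Q₁) a Q₂ ~ P (b Q₁) a a Q₂` (MVL with `P`, `a`, `S = b :: Q₁`) and
`w' = (P b) a Q₁ a Q₂ ~ (P b) Q₁ a a Q₂` (MVL with `P ++ [b]`, `a`, `Q₁`). -/
def TgbStmt : Prop := ∀ θ : FIC, Kc θ → ∀ m, WB m θ → Bt (FB m) θ

/-- FTA (medium, uses FRE CLO SEG OKM).  Proof: SEG with level `m + 1`, `A = P ++ [a, b]`,
`S = [a, b]`: `Q = q ++ qs.flatten ++ R` with `qs.length = m`, `2 ≤ (A ++ q).count z` for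
`z = a, b` and `Ok (A ++ q) q qs` (the list of length `m + 1` is `q :: qs`).  Let `f = qs.flatten`.
`P ab q f R ~ P ab q ab f R` (FRE) `~ P ab ab q f R` (`WA` with `X = [a, b]`, `C = q`, `Ok` by OKM)
`~ P ba ba q f R` (CLO: the factors `abab`, `baba`) `~ P ba q ba f R` (`WA` with `X = [b, a]`)
`~ P ba q f R` (FRE). -/
def FtaStmt : Prop := ∀ θ : FIC, Kc θ → ∀ m, WA m θ → ∀ (P : List ℕ) (a b : ℕ) (Q : List ℕ),
  (a ∈ P ∨ ¬ Dp (m + 1) (P ++ a :: b :: Q) a) → (b ∈ P ∨ ¬ Dp (m + 1) (P ++ a :: b :: Q) b) →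
    RR θ (P ++ a :: b :: Q) (P ++ b :: a :: Q)

/-- TGD (medium, uses SWK SEG OKM FTA).  Let `w = P ++ a :: b :: Q`.  (1) `a, b ∈ P`: SWK.
(2) `a, b ∉ P` (counts 0): the hypotheses give `¬ Dp (m+1) w a`, `¬ Dp (m+1) w b`: FTA.
(3) `a ∉ P`, `b ∈ P`, so `P.count b = 1`: `¬ Dp m w a` and (`¬ Dp (m+1) w a` or `¬ Dp e w b`).  In the
first case FTA.  Let `¬ Dp e w b`, `P = P₁ ++ b :: P₂`, `b ∉ P₁, P₂`.  SEG (level m) with
`A = P ++ [a, b]`, `S = [a]`: `Q = qs.flatten ++ R`.  `WD` with `P₁`, `X = [b]`, `D = P₂`, `C = [a]`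
gives `P₁ b P₂ b a Q ~ P₁ b P₂ a b Q`, that is the claim (`RR.symm`).  Conditions: `Ok` by OKM (the
same counts).  Let `m + 1 - e < m` and `l ∈ P₂`.  If `l ∈ P₁ ++ [b]` the count is 2 already in `P`.
Otherwise `P₂ = P₃ ++ l :: P₄`, `l ∉ P₃`, `pre w l = P₁ ++ b :: P₃` contains `b` once; so
`¬ Dp (e - 1) w l` (`Dp.step`, `e - 1 + 1 = e`), and the last clause of SEG with `j = m + 1 - e`
(`m - j = e - 1`, `j + 1 = m + 2 - e`) gives it.  (4) `a ∈ P`, `b ∉ P`: `¬ Dp m w b` and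
(`¬ Dp (m+1) w b` or `¬ Dp e w a`): the same with `P = P₁ ++ a :: P₂`, `X = [a]`, `C = [b]`,
`S = [b]` (no `symm`). -/
def TgdStmt : Prop := ∀ θ : FIC, Kc θ → ∀ m e, 1 ≤ e → e ≤ m → WA m θ → WD m e θ →
  Bt (FD m e) θ

/-- TGA (medium, uses SWK SEG OKM FTA DAG SWA).  As TGD with `e = m + 1`.  The new case: `a ∉ P`,
`b ∈ P`, `P = P₁ ++ b :: P₂`, `b ∉ P₁, P₂`, `¬ Dp m w a`, `¬ Dp (m+1) w b`, where
`w = P ++ a :: b :: Q`, `w' = P ++ b :: a :: Q`.  A letter `z ∈ P₂` with `z ∉ P₁ ++ [b]` has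
`¬ Dp m w z` (as in TGD: `(pre w z).count b = 1`).  (i) SEG for `w` with `A = P ++ [a, b]`, rest `Q`,
`S = P₂ ++ [a]`, level m; `WA` with `P₁`, `X = [b]`, `C = P₂ ++ [a]`:
`P₁ b b (P₂ a) Q ~ P₁ b (P₂ a) b Q = w`.  (ii) `Dp k w' ↔ Dp k w` for `k ≤ m + 1`: DAG and SWA for
the family `FF m w` (`a` and `b` satisfy its hypotheses).  SEG for `w'` with `A = P ++ [b]`, rest
`a :: Q`, `S = P₂`, level m; `WA` with `P₁`, `X = [b]`, `C = P₂`:
`P₁ b b P₂ (a Q) ~ P₁ b P₂ b (a Q) = w'`.  The left sides are equal.  The case `a ∈ P`, `b ∉ P`,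
`¬ Dp m w b`, `¬ Dp (m+1) w a`, `P = P₁ ++ a :: P₂` is the mirror image: `C = P₂ ++ [b]` for `w'`
and `C = P₂` for `w`. -/
def TgaStmt : Prop := ∀ θ : FIC, Kc θ → ∀ m, WA m θ → Bt (FD m (m + 1)) θ

/-! ## Reading a word with a chain -/

/-- CRD (medium, uses FRE).  Proof: induction on `cs` for all `p, B, P'`.  `cs = []`: all letters
`z` of `B` have `g z = []` or their image is dead (`z ∉ p`), so `B.flatMap g` is free: FRE.
`c :: cs`: `B = B₁ ++ c :: B₂`; the letters of `B₁` are not in `p`, not `c`, not in `cs`, so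
`B₁.flatMap g` is free over `P'`: `P' ++ B.flatMap g ~ (P' ++ g c) ++ B₂.flatMap g`.  Induction
hypothesis with `P' ++ g c`, `p = [c]`: the letters `z ∈ B₂` with `z ∈ p` are now dead by the first
clause of `Ok`, dead letters stay dead. -/
def CrdStmt : Prop := ∀ θ : FIC, Kc θ → ∀ (g : ℕ → List ℕ) (cs p B P' : List ℕ), Chb p cs B →
  (∀ z ∈ B, g z = [] ∨ z ∈ p ∨ z ∈ cs ∨ ∀ l ∈ g z, 2 ≤ P'.count l) →
    Ok P' (p.flatMap g) (cs.map g) → RR θ (P' ++ B.flatMap g) (P' ++ (cs.map g).flatten)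

/-- CRX (medium, uses FRE CRD).  The same with a delayed letter `d`.
Proof: induction on `cs` for all `k, p, B, P'`, as CRD.  `cs = []`: `d ∉ B`.  `c :: cs`, `k = 0`:
`B₁` does not contain `d`; over `P' ++ g c` the image of `d` is dead (hypothesis,
`(c :: cs).take 1 = [c]`): CRD for the rest.  `k + 1`: induction hypothesis with `P' ++ g c`
(`((c :: cs).take (k + 2)).map g).flatten = g c ++ ((cs.take (k + 1)).map g).flatten`). -/
def CrxStmt : Prop := ∀ θ : FIC, Kc θ → ∀ (g : ℕ → List ℕ) (d : ℕ) (cs : List ℕ) (k : ℕ)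
  (p B P' : List ℕ), Chd d k p cs B →
  (∀ z ∈ B, g z = [] ∨ z = d ∨ z ∈ p ∨ z ∈ cs ∨ ∀ l ∈ g z, 2 ≤ P'.count l) →
    Ok P' (p.flatMap g) (cs.map g) →
      (k < cs.length → ∀ l ∈ g d, 2 ≤ (P' ++ ((cs.take (k + 1)).map g).flatten).count l) →
        RR θ (P' ++ B.flatMap g) (P' ++ (cs.map g).flatten)

/-- ASG (easy).  A substitution with given values.  Proof: induction on `L`; for `z :: L` change the
value at `z` (`z ∉ L`). -/
def AsgStmt : Prop := ∀ (L : List ℕ) (W : List (List ℕ)), L.Nodup → L.length = W.length →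
  ∃ g : ℕ → List ℕ, L.map g = W ∧ ∀ z, z ∉ L → g z = []

/-- CVT (easy-medium).  Proof: induction on `cs` for all `p, A₀, B`.  `cs = []`: `w.count z = 1` and
`A₀.count z = 1` give `z ∉ B`.  `c :: cs`: `c ∈ w`, `c ∉ A₀`, so `B = B₁ ++ c :: B₂`, `c ∉ B₁`,
`pre w c = A₀ ++ B₁`.  `z ∈ p`: the count is 1 in `A₀` and in `A₀ ++ B₁`, so `z ∉ B₁`.  `z ∈ cs`:
`c ∈ pre w z` (`Chc.mem_pre`), so `z ∉ pre w c` (`pre_asymm`).  Induction hypothesis with
`A₀ ++ B₁ ++ [c]`, `p = [c]` (a letter of `cs` is not `c`). -/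
def CvtStmt : Prop := ∀ (cs p w A₀ B : List ℕ), w = A₀ ++ B → (∀ z ∈ p, A₀.count z = 1) →
  (∀ c ∈ cs, c ∉ A₀) → Chc w p cs → Chb p cs B

/-- CVD (easy-medium, uses CVT).  The same with the delayed letter.
Proof: induction on `cs` for all `k, p, A₀, B`.  `cs = []`: `w.count d = 1`, so `d ∉ B`.
`c :: cs`: decomposition as in CVT.  `d ∉ B₁`: if `k = 0` then `(pre w c).count d = 1` and
`pre w c = A₀ ++ B₁`, `A₀.count d = 1`.  If `k = k' + 1`: either `cs[k']? = some c'`, `c ∈ pre w c'`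
(`Chc.mem_pre`), `(pre w c').count d = 1`, so `(pre w c).count d ≤ 1` (`count_pre_mono`), or
`w.count d = 1`.  Then CVT (`k = 0`) or the induction hypothesis with `A₀ ++ B₁ ++ [c]`
(`d ≠ c` since `d ∈ A₀`). -/
def CvdStmt : Prop := ∀ (cs : List ℕ) (k d : ℕ) (p w A₀ B : List ℕ), w = A₀ ++ B →
  (∀ z ∈ p, A₀.count z = 1) → A₀.count d = 1 → (∀ c ∈ cs, c ∉ A₀) → Chc w p cs →
    (∀ c, cs[k]? = some c → (pre w c).count d = 1) → (cs[k]? = none → w.count d = 1) →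
      Chd d k p cs B

/-! ## Chains -/

/-- CHE (easy-medium).  Proof: induction on `k` for all `y`.  `k = 0`: `Dp 1 w y` means
`w.count y = 1` (`Dp 0` is false); `cs = []`.  `k + 1`: `w.count y ≠ 1` (otherwise `Dp (k+1) w y`), so
there is `t` with `Dp (k+1) w t`, `(pre w t).count y = 1`; `¬ Dp k w t` (otherwise `Dp (k+1) w y` by
`Dp.step`).  `cs = t :: cs'` with `cs'` for `t`. -/
def CheStmt : Prop := ∀ (k : ℕ) (w : List ℕ) (y : ℕ), Dp (k + 1) w y → ¬ Dp k w y →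
  ∃ cs : List ℕ, cs.length = k ∧ Chc w [y] cs ∧ ∀ c ∈ cs, Dp k w c

/-- CH2 (medium, uses CHE).  A chain which passes a second occurrence of `d`.
Proof: induction on `n` for all `y`.
`n = 0`: `w.count y ≠ 1` and `w.count d ≠ 1` (`Dp.simple`), so there are `t', t` with
`Dp (f+1) w t'`, `(pre w t').count y = 1`, `Dp (f+1) w t`, `(pre w t).count d = 1`.  `y ∈ pre w t` by
hypothesis, `d ∈ pre w t'` (`pre_trans`).  If `t = t'` or `t ∈ pre w t'` take `s = t`: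
`(pre w s).count y ≤ 1` (`count_pre_mono`) and `≥ 1`.  Otherwise `t' ∈ pre w t` (`pre_total`), take
`s = t'`.  So `Dp (f+1) w s`, both counts are 1; `¬ Dp f w s` (otherwise `Dp (f+1) w y`).  CHE for
`s` with `k = f`: `cs = s :: cs'`.
`n + 1`: `w.count y ≠ 1`, so there is `c` with `Dp (f+n+2) w c`, `(pre w c).count y = 1`,
`¬ Dp (f+n+1) w c`.  `d ∈ pre w c`.  Let `Dp (f+1) w t`, `d ∈ pre w t`; then `y ∈ pre w t` and
`(pre w t).count y ≠ 1` (otherwise `Dp (f+2) w y`, so `Dp (f+n+2) w y`), so `c ∈ pre w t`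
(`pre_of_count`, `Dp.mem`).  Induction hypothesis for `c`; `cs = c :: cs'`. -/
def Ch2Stmt : Prop := ∀ (n f : ℕ) (w : List ℕ) (d y : ℕ), Dp (f + 2) w d → ¬ Dp (f + 1) w d →
  Dp (f + n + 2) w y → ¬ Dp (f + n + 1) w y → d ∈ pre w y →
  (∀ t, Dp (f + 1) w t → d ∈ pre w t → y ∈ pre w t) →
    ∃ cs : List ℕ, cs.length = f + n + 1 ∧ Chc w [y] cs ∧ (∀ c ∈ cs, Dp (f + n + 1) w c) ∧
      ∃ c, cs[n]? = some c ∧ (pre w c).count d = 1

/-- TRC (easy).  Proof: induction on `cs` for all `p`: `Ag.count_one`, `Ag.pre_count_one`,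
`Ag.mem`. -/
def TrcStmt : Prop := ∀ (m : ℕ) (u v : List ℕ), Ag (FF m v) u v → ∀ (cs p : List ℕ),
  (∀ c ∈ cs, Dp m v c) → Chc u p cs → Chc v p cs

/-! ## Type F: from a disagreement to the word bit -/

/-- SFA (medium, uses DAG CHE TRC).
Proof: `¬ Ag (FB m v) u v` and `Ag (FF m v) u v` give `y, x` with `Dp (m+1) v y`, `Dp (m+1) v x` and
`¬ (x ∈ pre u y ↔ x ∈ pre v y)` (only `i = 0`, and `¬ Dp m v y`).  All letters are in `u` and in `v`,
`x ≠ y`.  `¬ Dp m v x`: otherwise `y ∈ pre u x ↔ y ∈ pre v x` (`Ag.mem_pre`), and `pre_total`,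
`pre_asymm` give the agreement for `x, y`.  By DAG the same holds in `u`.  If `x ∈ pre u y`,
`x ∉ pre v y`, then `y ∈ pre v x`; otherwise `x ∈ pre v y`, `y ∈ pre u x`, and we exchange the names.
So let `x ∈ pre u y`, `y ∈ pre v x`.  `m = 0`: `x, y` are simple in both words, `cs = []`.
`m = n + 1`: `u.count x ≠ 1`, so `Dp m u c`, `(pre u c).count x = 1` for some `c`; `Dp m u c'`,
`(pre u c').count y = 1` for some `c'`.  `y ∈ pre u c`: `x ∈ pre u c`, so `x ∈ pre v c`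
(`Ag.mem_pre`, `Dp m v c`), `y ∈ pre v c` (`pre_trans`), `y ∈ pre u c`.  `x ∈ pre u c'`
(`pre_trans`).  If `c = c'` or `c ∈ pre u c'` take `s = c` (`(pre u c).count y ≤ 1`), otherwise
`s = c'`.  So `Dp (n+1) u s`, `(pre u s).count x = (pre u s).count y = 1`, `¬ Dp n u s` (otherwise
`Dp (n+1) u x`).  CHE for `s`, `k = n`: `cs = s :: cs'`, all letters of `cs` satisfy `Dp m u`.  TRC
gives the chain in `v`. -/
def SfaStmt : Prop := ∀ (m : ℕ) (u v : List ℕ), Ag (FF m v) u v → ¬ Ag (FB m v) u v →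
  ∃ (x y : ℕ) (cs : List ℕ), cs.length = m ∧ x ∈ pre u y ∧ y ∈ pre v x ∧ y ∈ u ∧ x ∈ v ∧
    Chc u [x, y] cs ∧ Chc v [x, y] cs

/-- SFB (medium, uses FRE CVT CRD ASG OKM).
Proof.  `u = A ++ y :: B`, `A = pre u y`; `A = U₁ ++ x :: U₂`, `x ∉ U₁`; `x ∉ U₂` because
`A.count x ≤ 1` (`cs = []`: `u.count x = 1`; `cs = c :: _`: `(pre u c).count x = 1` and
`y ∈ pre u c`, `count_pre_mono`).  A letter `c ∈ cs` is not in `A` and not `y`: `y ∈ pre u c`
(`Chc.mem_pre`), `pre_asymm`.  CVT with `A₀ = A ++ [y]`: `Chb [x, y] cs B`.  In the same way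
`v = V₁ ++ y :: V₂ ++ x :: B'`, `Chb [x, y] cs B'`.  `x :: y :: cs` is duplicate free
(`Chc.not_mem`, `Chc.nodup`).  Let `P, X, Y, qs, R` be as in `WF`.  ASG: `g x = X`, `g y = Y`,
`cs.map g = qs`, `g z = []` otherwise.  `RR.sub g`, `RR.append`:
`P ++ u.flatMap g ++ R ~ P ++ v.flatMap g ++ R`.  `P ++ u.flatMap g = (P ++ X ++ Y) ++ B.flatMap g`,
CRD with `p = [x, y]` (`p.flatMap g = X ++ Y`): `~ P ++ X ++ Y ++ qs.flatten`; for `v`:
`(P ++ Y ++ X) ++ B'.flatMap g ~ P ++ Y ++ X ++ qs.flatten` (`Ok` by OKM). -/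
def SfbStmt : Prop := ∀ θ : FIC, Kc θ → ∀ (m : ℕ) (u v : List ℕ) (x y : ℕ) (cs : List ℕ),
  RR θ u v → cs.length = m → x ∈ pre u y → y ∈ pre v x → y ∈ u → x ∈ v →
    Chc u [x, y] cs → Chc v [x, y] cs → WF m θ

/-! ## Type B -/

/-- SBA (medium, uses DAG CHE TRC).
Proof: `¬ Ag (FD m 1 v) u v`, `Ag (FB m v) u v`: there are `y, x, i` with `Dp (m+1) v y`,
`¬ Dp m v y`, and `i = 0` or `Dp 1 v x`, and a disagreement.  If `i = 1` and `Dp 1 v x`, `x` is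
simple in `v` and in `u` (`Ag.count_one`) and both sides `2 ≤ ..` are false (`count_pre_le`), no
disagreement.  So `i = 0`: `¬ (x ∈ pre u y ↔ x ∈ pre v y)`.  `¬ Dp (m+1) v x` because of
`Ag (FB m v) u v`.  If `x ∈ pre u y`, `x ∉ pre v y` take `u' = u`, `v' = v`, otherwise
`u' = v`, `v' = u` (`Ag` of type `FF m` in both directions by DAG; depth up to `m+1` is the same).
`x ∈ v'` (`Ag.mem`).  CHE for `y` in `u'` with `k = m`: `cs`; TRC for `v'`.  For `c ∈ cs`: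
`x ∈ pre u' y`, `y ∈ pre u' c`, so `x ∈ pre u' c`, and `x ∈ pre v' c` since `Dp m _ c`. -/
def SbaStmt : Prop := ∀ (m : ℕ) (u v : List ℕ), Ag (FB m v) u v → ¬ Ag (FD m 1 v) u v →
  ∃ u' v' : List ℕ, ((u' = u ∧ v' = v) ∨ (u' = v ∧ v' = u)) ∧ ∃ (x y : ℕ) (cs : List ℕ),
    cs.length = m ∧ x ∈ pre u' y ∧ x ∉ pre v' y ∧ x ∈ v' ∧ y ∈ u' ∧ y ∈ v' ∧
      Chc u' [y] cs ∧ Chc v' [y] cs ∧ ∀ c ∈ cs, x ∈ pre v' c

/-- SBB (medium, uses FRE CVT CRD ASG OKM).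
Proof.  `u = A ++ y :: B`, `A = pre u y = U₁ ++ x :: U₂`, `x ∉ U₁`; letters `c ∈ cs` are not in
`A ++ [y]` (`y ∈ pre u c`); CVT (`A₀ = A ++ [y]`, `y ∉ A`): `Chb [y] cs B`.  `v = A' ++ y :: B₀`,
`A' = pre v y`, `x ∉ A'`, `x ≠ y`, so `B₀ = V₂ ++ x :: B'`, `x ∉ V₂`.  `cs` has no letter in
`A' ++ y :: V₂ ++ [x]`: for `c ∈ cs`, `pre v x = A' ++ y :: V₂`, `x ∈ pre v c`, `pre_asymm`, `c ≠ x`.
`y ∉ V₂`: `cs = []`: `v.count y = 1`; `cs = c :: _`: `(pre v c).count y = 1` and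
`x ∈ pre v c`, so `(pre v x).count y ≤ 1`.  CVT with `A₀ = A' ++ y :: V₂ ++ [x]`:
`Chb [y] cs B'`.  `x, y, cs` is duplicate free (`x ∉ cs`: `x ∈ pre v c`).  Let `P, X, C, qs, R` be as
in `WB`; ASG: `g x = X`, `g y = C`, `cs.map g = qs`.  Reading `u`:
`P ++ U₁.flatMap g ++ X ++ U₂.flatMap g ~ P ++ X` (`U₁`: all images empty; `U₂` contains only `x` and
letters with empty image, and `X` is dead over `P ++ X`: FRE), then `C`, then CRD with `p = [y]`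
(`x` is dead): `P ++ X ++ C ++ qs.flatten`.  Reading `v`: `P ++ C ++ X`, then CRD with `p = [y]`:
`P ++ C ++ X ++ qs.flatten` (`2 ≤ (P ++ C ++ X).count l` for `l ∈ X`, `Ok` by OKM). -/
def SbbStmt : Prop := ∀ θ : FIC, Kc θ → ∀ (m : ℕ) (u v : List ℕ) (x y : ℕ) (cs : List ℕ),
  RR θ u v → cs.length = m → x ∈ pre u y → x ∉ pre v y → x ∈ v → y ∈ u → y ∈ v →
    Chc u [y] cs → Chc v [y] cs → (∀ c ∈ cs, x ∈ pre v c) → WB m θ

/-! ## Types D and A -/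

/-- SDA (medium-strong, uses DAG CHE CH2 TRC).  Let `1 ≤ e ≤ m`.
Proof.  The disagreement: `Dp (m+1) v y`, `¬ Dp m v y`, `i = 1`, `Dp (e+1) v x`, `¬ Dp e v x`,
`¬ (2 ≤ (pre u y).count x ↔ 2 ≤ (pre v y).count x)` (all other clauses of `FD m (e+1)` are clauses
of `FD m e`).  Let `u'` be the word with `2 ≤ (pre u' y).count x` and `v'` the other one.  By DAG
(for `FF m`, both directions) the depths up to `m + 1` are the same in both words; `y ∈ u'`,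
`y ∈ v'` (`Dp.mem`).  `x ∈ pre v' y` by the clause `i = 0` for `y`, so `(pre v' y).count x = 1`.
`d`: `v.count x ≠ 1` (`e ≥ 1`, `Dp.simple`), so `Dp e v d`, `(pre v d).count x = 1` for some `d`;
`e ≤ m`, so by `Ag.pre_count_one` the same in `u`: `(pre u' d).count x = (pre v' d).count x = 1`.
`¬ Dp (e-1) v d` (otherwise `Dp e v x`).  `d ∈ pre u' y`: `pre_of_count` (`1 < 2`); `d ∈ pre v' y`:
clause `i = 0` for `y`.
Chain.  `e = 1`: CHE for `y` in `u'`, `k = m`; `cs[m]? = none`; `d` is simple in both words.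
`e = f + 2`: CH2 for `u'` with `n = m + 1 - e`, that is `m = f + n + 1`: `Dp (f+2) u' d`,
`¬ Dp (f+1) u' d`, and for `t` with `Dp (f+1) u' t`, `d ∈ pre u' t`: `x ∈ pre u' d`, so
`x ∈ pre u' t`, `x ∈ pre v' t` (`Dp m _ t`); `(pre v' t).count x ≠ 1` (otherwise
`Dp (f+2) v' x = Dp e v' x`), so it is `≥ 2 > (pre v' y).count x`, hence `y ∈ pre v' t`
(`pre_of_count`), and `y ∈ pre u' t` (`Ag.mem_pre`, `Dp m _ t`).  CH2 gives `cs` of length `m`,
letters of `cs` satisfy `Dp m`, `cs[n]? = some c`, `(pre u' c).count d = 1`, and the same in `v'`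
(`Ag.pre_count_one`).  TRC: `Chc v' [y] cs`.  For `c ∈ cs`: `2 ≤ (pre u' y).count x ≤
(pre u' c).count x` (`y ∈ pre u' c`), so `2 ≤ (pre v' c).count x` by agreement (`Dp m _ c`).
`2 ≤ v'.count x`: `2 ≤ u'.count x` (`count_pre_le`) and the first clause of `Ag`. -/
def SdaStmt : Prop := ∀ (m e : ℕ) (u v : List ℕ), 1 ≤ e → e ≤ m → Ag (FD m e v) u v →
  ¬ Ag (FD m (e + 1) v) u v →
  ∃ u' v' : List ℕ, ((u' = u ∧ v' = v) ∨ (u' = v ∧ v' = u)) ∧ ∃ (x d y : ℕ) (cs : List ℕ),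
    cs.length = m ∧ (pre u' d).count x = 1 ∧ (pre v' d).count x = 1 ∧ d ∈ pre u' y ∧
      d ∈ pre v' y ∧ 2 ≤ (pre u' y).count x ∧ (pre v' y).count x = 1 ∧ y ∈ u' ∧ y ∈ v' ∧
      Chc u' [y] cs ∧ Chc v' [y] cs ∧ (∀ c ∈ cs, 2 ≤ (pre v' c).count x) ∧ 2 ≤ v'.count x ∧
      (∀ c, cs[m + 1 - e]? = some c → (pre u' c).count d = 1 ∧ (pre v' c).count d = 1) ∧
      (cs[m + 1 - e]? = none → u'.count d = 1 ∧ v'.count d = 1)

/-- SDB (medium-strong, uses FRE CVD CRX ASG OKM).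
Proof.  Positions.  `u = A ++ y :: B`, `A = pre u y`.  `A = U₁ ++ x :: U₂ ++ d :: U₃ ++ x :: U₄` with
`x ∉ U₁, U₂, U₃`, `d ∉ U₁, U₂, U₃, U₄`: `pre u d = U₁ ++ x :: U₂`, then the second `x`; `d` occurs
only once in `A ++ [y]`: if `cs[m+1-e]? = some c` then `y ∈ pre u c` (`Chc.mem_pre`,
`List.mem_of_getElem?`) and `(pre u c).count d = 1`; otherwise `u.count d = 1`.  `c ∈ cs` is not in
`A ++ [y]`.  CVD with `k = m + 1 - e`, `A₀ = A ++ [y]`, `p = [y]`: `Chd d k [y] cs B`.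
`v = A' ++ y :: B₀`, `A' = pre v y = V₁ ++ x :: V₂ ++ d :: V₃`, without further `x` (count 1),
`d`.  `2 ≤ v.count x`, so `B₀ = V₄ ++ x :: B'`, `x ∉ V₄`.  A letter `c ∈ cs` is not in
`A' ++ y :: V₄ ++ [x]`: this list contains `x` only at its end a second time; if `c` was in it, then
(`c ≠ x`, because `x ∈ pre v c`) `pre v c` would be a part of `A' ++ y :: V₄`, which contains `x`
once, but `2 ≤ (pre v c).count x`.  `y ∉ V₄` and `d ∉ V₄`: `cs = []`: `v.count y = 1`, `v.count d = 1`;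
`cs = c :: _`: `A' ++ y :: V₄ ++ [x]` is an initial part of `pre v c` (by the last remark: `c` is
not in it), `(pre v c).count y = 1`; and `(pre v c).count d = 1` (`c` is the first letter of the
chain: `cs[k]? = some c'` gives `c = c'` or `c ∈ pre v c'`, or `v.count d = 1`).  CVD with
`A₀ = A' ++ y :: V₄ ++ [x]`: `Chd d k [y] cs B'`.  `x, d, y, cs` is duplicate free.
Reading.  Let `P, X, D, C, qs, R` be as in `WD`; ASG: `g x = X`, `g d = D`, `g y = C`,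
`cs.map g = qs`.  `u`: `P ++ X ++ D ++ X`, then `U₄.flatMap g` is free (FRE: `X` is dead), then `C`,
then CRX: `P ++ X ++ D ++ X ++ C ++ qs.flatten`.  `v`: `P ++ X ++ D ++ C ++ X`, then CRX.  (`Ok` and
the condition for `D` by OKM and equality of counts; `m + 1 - e + 1 = m + 2 - e` for
`e ≤ m + 1`; `(cs.take k).map g = qs.take k`, `List.map_take`.) -/
def SdbStmt : Prop := ∀ θ : FIC, Kc θ → ∀ (m e : ℕ) (u v : List ℕ) (x d y : ℕ) (cs : List ℕ),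
  e ≤ m → RR θ u v → cs.length = m → (pre u d).count x = 1 → (pre v d).count x = 1 →
    d ∈ pre u y → d ∈ pre v y → 2 ≤ (pre u y).count x → (pre v y).count x = 1 → y ∈ u → y ∈ v →
    Chc u [y] cs → Chc v [y] cs → (∀ c ∈ cs, 2 ≤ (pre v c).count x) → 2 ≤ v.count x →
      (∀ c, cs[m + 1 - e]? = some c → (pre u c).count d = 1 ∧ (pre v c).count d = 1) →
      (cs[m + 1 - e]? = none → u.count d = 1 ∧ v.count d = 1) → WD m e θ

/-- SAA (medium, uses DAG CHE TRC).  Proof: the disagreement: `Dp (m+1) v y`, not (`¬ Dp m v y`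
fails), and it is not visible for `FD m (m+1)`: so `i = 1`, `¬ Dp (m+1) v x`,
`¬ (2 ≤ (pre u y).count x ↔ 2 ≤ (pre v y).count x)`.  Let `u'` be the word with
`2 ≤ (pre u' y).count x`, `v'` the other one; `x ∈ pre v' y` by the clause `i = 0`, so
`(pre v' y).count x = 1`.  CHE for `y` in `u'`, `k = m` (`¬ Dp m _ y`; depths up to `m+1` are the
same by DAG), TRC.  For `c ∈ cs`: `2 ≤ (pre u' c).count x` (`y ∈ pre u' c`), so
`2 ≤ (pre v' c).count x`.  `2 ≤ v'.count x` by the first clause of `Ag`. -/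
def SaaStmt : Prop := ∀ (m : ℕ) (u v : List ℕ), Ag (FD m (m + 1) v) u v →
  ¬ Ag (FF (m + 1) v) u v →
  ∃ u' v' : List ℕ, ((u' = u ∧ v' = v) ∨ (u' = v ∧ v' = u)) ∧ ∃ (x y : ℕ) (cs : List ℕ),
    cs.length = m ∧ 2 ≤ (pre u' y).count x ∧ (pre v' y).count x = 1 ∧ y ∈ u' ∧ y ∈ v' ∧
      Chc u' [y] cs ∧ Chc v' [y] cs ∧ (∀ c ∈ cs, 2 ≤ (pre v' c).count x) ∧ 2 ≤ v'.count x

/-- SAB (medium, uses FRE CVT CRD ASG OKM).
Proof.  `u = A ++ y :: B`, `A = pre u y = U₁ ++ x :: U₂ ++ x :: U₃`, `x ∉ U₁, U₂`.  CVT as in SBB: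
`Chb [y] cs B`.  `v = A' ++ y :: B₀`, `A' = V₁ ++ x :: V₂`, `x ∉ V₁, V₂`;
`B₀ = V₃ ++ x :: B'`, `x ∉ V₃` (`2 ≤ v.count x`).  `c ∈ cs` is not in `A' ++ y :: V₃ ++ [x]` (as in
SDB: `2 ≤ (pre v c).count x`, `c ≠ x`).  `y ∉ V₃` (as in SDB).  CVT: `Chb [y] cs B'`.  Let
`P, X, C, qs, R` be as in `WA`, `g x = X`, `g y = C`, `cs.map g = qs`.  `u`: `P ++ X ++ X`, then
`U₃.flatMap g` free, then `C`, then CRD.  `v`: `P ++ X ++ C ++ X`, then CRD. -/
def SabStmt : Prop := ∀ θ : FIC, Kc θ → ∀ (m : ℕ) (u v : List ℕ) (x y : ℕ) (cs : List ℕ),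
  RR θ u v → cs.length = m → 2 ≤ (pre u y).count x → (pre v y).count x = 1 → y ∈ u → y ∈ v →
    Chc u [y] cs → Chc v [y] cs → (∀ c ∈ cs, 2 ≤ (pre v c).count x) → 2 ≤ v.count x → WA m θ

/-! ## The limit and the degenerate levels -/

/-- STB (easy-medium).  Proof: let `n k` be the number of letters `x ∈ v.toFinset` with `Dp k v x`
(`Finset.filter` with `Classical`).  It is non decreasing (`Dp.mono`) and bounded by
`v.toFinset.card`, so `n (m+1) = n m` for some `m`; then the two sets are equal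
(`Finset.eq_of_subset_of_card_le`), and `Dp (m+1) v x` implies `x ∈ v` (`Dp.mem`). -/
def StbStmt : Prop := ∀ v : List ℕ, ∃ m, ∀ x, Dp (m + 1) v x → Dp m v x

/-- LIM (medium, uses TRU SRT DAG CUT TWC CLO STB).
Proof: truncate `u ~ u'`, `v ~ v'` (TRU); all `Ag (FF m v') u' v'` hold (DAG gives
`FF m v = FF m v'` from `Ag True v v'`).  STB for `v'`: `m` with `Dp (m+1) v' x → Dp m v' x`.  SRT
with `F = FF m v'`: let `W = P ++ a :: b :: Q`, `Ag F W v'`, `a ∈ P ∨ ¬ Dp m v' a`,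
`b ∈ P ∨ ¬ Dp m v' b`.  By DAG `Dp k W z ↔ Dp k v' z` for `k ≤ m + 1`; so `Dp (m+1) W z → Dp m W z`.
CUT with `D = Dp m W`, `A = P ++ [a, b]`: `Q = q ++ Q'`.  Let `Z = a :: b :: q`.  Every `z ∈ Z` has
`2 ≤ (P ++ Z).count z`: if `¬ Dp m W z` then `¬ Dp (m+1) W z`, TWC; otherwise `z ∈ P` (for
`z = a, b`) or `z ∈ A` (for `z ∈ q`; then `z` occurs in `A` and in `q`).  The same holds for
`Z' = b :: a :: q`.  CLO. -/
def LimStmt : Prop := ∀ θ : FIC, Kc θ → ∀ u v : List ℕ, (∀ m, Ag (FF m v) u v) → RR θ u v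

/-- DG1 (easy-medium).  Proof: filter `c` (`RR.filter`) and rename: `RR θ (replicate k 0) []`,
`k = u.count c ≥ 1`.  `x^2 ~ x^3` (`Kc.g` with `1 ↦ []`), so `x^{2k} ~ x^{2k+1}`.  From
`x^k ~ 1`: `x^{2k} ~ 1`, `x^{2k+1} ~ x`; so `RR θ [0] []`.  Substitute: `RR θ [a] []` for every
letter `a`, hence `RR θ w []` for every word (induction). -/
def Dg1Stmt : Prop := ∀ θ : FIC, Kc θ → ∀ (u v : List ℕ) (c : ℕ), RR θ u v → c ∈ u → c ∉ v →
  ∀ w w' : List ℕ, RR θ w w'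

/-- DG2 (easy-medium, uses CLO).  Proof: filter `c` and rename: `RR θ [0] (replicate k 0)`, `k ≥ 2`,
and `replicate k 0 ~ [0, 0]` (`x^2 ~ x^3`).  So `RR θ [a] [a, a]` for every letter, hence
`RR θ w (dbl w)` (induction), and CLO with `P = Q = []`: `dbl w ~ dbl w'` (`(dbl w).count l ≥ 2` for
its letters, same letters). -/
def Dg2Stmt : Prop := ∀ θ : FIC, Kc θ → ∀ (u v : List ℕ) (c : ℕ), RR θ u v → u.count c = 1 →
  2 ≤ v.count c → ∀ w w' : List ℕ, (∀ x, x ∈ w ↔ x ∈ w') → RR θ w w'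

/-! ## Assembly -/

/-- LVM (easy).  Proof: `Ag.weaken`; `FF m ≤ FB m ≤ FD m 1`, `FD m e ≤ FD m (e+1)`,
`FD m (m+1) ≤ FF (m+1)` (`Dp.mono`). -/
def LvmStmt : Prop := ∀ (m : ℕ) (u v : List ℕ),
  (∀ j, AgL m (j + 1) u v → AgL m j u v) ∧ (AgL (m + 1) 0 u v → AgL m (m + 2) u v)

/-- LVS (easy-medium, uses SFA SFB TGF SBA SBB TGB SDA SDB TGD SAA SAB TGA).
Proof: `j = 0`: SFA, SFB, TGF.  `j = 1`: SBA, SBB (for `u', v'`, with `RR.symm` if they are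
exchanged), TGB.  `j = e + 1`, `1 ≤ e ≤ m`: SDA, SAB, SDB, TGD.  The last clause: SAA, SAB, TGA. -/
def LvsStmt : Prop := ∀ θ : FIC, Kc θ → ∀ (m : ℕ) (u v : List ℕ), RR θ u v →
  (∀ j ≤ m + 1, AgL m j u v → ¬ AgL m (j + 1) u v → BtL m j θ) ∧
  (AgL m (m + 2) u v → ¬ AgL (m + 1) 0 u v → BtL m (m + 2) θ)

/-- LVD (easy, uses DER INV).  Proof: DER for `F = FF m`, `FB m`, `FD m e` (`e ≤ m + 1`), hypothesis
of DER by INV. -/
def LvdStmt : Prop := ∀ θ : FIC, Kc θ → ∀ (m : ℕ) (u v : List ℕ), ∀ j ≤ m + 2, BtL m j θ →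
  AgL m j u v → RR θ u v

/-- CHA (medium, uses LVM LVS LVD LIM DG1 DG2).  **The fully invariant congruences above `K` form a
chain.**
Proof: suppose `¬ θ₁ ≤ θ₂`, `¬ θ₂ ≤ θ₁`: lists `u₁, v₁` with `RR θ₁ u₁ v₁`, `¬ RR θ₂ u₁ v₁`, and
`u₂, v₂` with `RR θ₂ u₂ v₂`, `¬ RR θ₁ u₂ v₂`.  (i) The contents of `u₁, v₁` are equal, by DG1 for
`θ₁` (otherwise `RR θ₁ u₂ v₂`), the same for `u₂, v₂`.  (ii) `u₁.count c = 1 ↔ v₁.count c = 1`: by
DG2 for `θ₁` (otherwise `RR θ₁ u₂ v₂`, same content by (i)), the same for `u₂, v₂`.  So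
`AgL 0 0` holds for both pairs (`Dp 0` is false).  (iii) By LIM for `θ₂` there is `m` with
`¬ AgL m 0 u₁ v₁`; let `m₁ + 1` be the least one.  Let `j₁ ≤ m₁ + 2` be the largest with
`AgL m₁ j₁ u₁ v₁`.  By LVS `BtL m₁ j₁ θ₁`.  In the same way `m₂, j₂`, `BtL m₂ j₂ θ₂`.  (iv) If
`m₁ < m₂` or (`m₁ = m₂`, `j₁ ≤ j₂`) then `AgL m₁ j₁ u₂ v₂` (LVM), so `RR θ₁ u₂ v₂` by LVD,
contradiction.  Otherwise `m₂ < m₁` or (`m₂ = m₁`, `j₂ ≤ j₁`): `RR θ₂ u₁ v₁`, contradiction. -/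
def ChaStmt : Prop := ∀ θ₁ θ₂ : FIC, Kc θ₁ → Kc θ₂ → θ₁ ≤ θ₂ ∨ θ₂ ≤ θ₁

/-- MOD (easy, uses CHA).  **Sufficiency of K: the lattice is modular (a chain).**
Proof: let `ρ ≤ τ`, `(u, v) ∈ (ρ ∨ σ) ∧ τ`.  CHA for `ρ, σ`: if `σ ≤ ρ` then `ρ ∨ σ ≤ ρ`, so
`(u, v) ∈ ρ`.  If `ρ ≤ σ`: `ρ ∨ σ ≤ σ`, so `(u, v) ∈ σ ∧ τ`. -/
def ModStmt : Prop := ∀ β : FIC, Kc β → ModF β

end Pool.Agent.MWK
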